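import Pool.Agent.Lib_helper52.EPS.Defs

set_option autoImplicit false

namespace Pool.Agent.EPS

open MeasureTheory Set Filter Topology

variable {d : ℕ}

/-- the map `((a, y), b) ↦ (a, y + b)` -/
def f4_g {E : Type} [Add E] (p : (E × E) × E) : E × E := (p.1.1, p.1.2 + p.2)

theorem f4_meas : Measurable (f4_g : (EuclideanSpace ℝ (Fin d) × EuclideanSpace ℝ (Fin d)) ×
    EuclideanSpace ℝ (Fin d) → _) := by
  unfold f4_g
  fun_prop

theorem f4_one (α β γ : Measure (EuclideanSpace ℝ (Fin d))) [IsProbabilityMeasure α]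
    [IsProbabilityMeasure β] [IsProbabilityMeasure γ] :
    ((Jn α γ).prod β).map f4_g = Jn α (β.conv γ) := by
  have hm1 : Measurable (fun p : EuclideanSpace ℝ (Fin d) × EuclideanSpace ℝ (Fin d) =>
    (p.1, p.1 + p.2)) := by fun_prop
  have : IsProbabilityMeasure (Jn α γ) := Measure.isProbabilityMeasure_map hm1.aemeasurable
  refine Measure.ext_of_lintegral _ fun f hf => ?_
  rw [lintegral_map hf f4_meas]
  have hfg : Measurable (fun q => f (f4_g q)) := hf.comp (f4_meas (d := d))
  rw [lintegral_prod _ hfg.aemeasurable]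
  have h1 : Measurable (fun x : EuclideanSpace ℝ (Fin d) × EuclideanSpace ℝ (Fin d) =>
      ∫⁻ y, f (f4_g (x, y)) ∂β) := hfg.lintegral_prod_right'
  unfold Jn
  rw [lintegral_map h1 hm1, lintegral_map hf hm1]
  have h2 : Measurable (fun p : EuclideanSpace ℝ (Fin d) × EuclideanSpace ℝ (Fin d) =>
      ∫⁻ y, f (f4_g ((p.1, p.1 + p.2), y)) ∂β) := h1.comp hm1
  rw [lintegral_prod _ h2.aemeasurable]
  have h3 : Measurable (fun p : EuclideanSpace ℝ (Fin d) × EuclideanSpace ℝ (Fin d) =>
      f (p.1, p.1 + p.2)) := hf.comp hm1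
  rw [lintegral_prod _ h3.aemeasurable]
  refine lintegral_congr fun a => ?_
  have h4 : Measurable (fun y : EuclideanSpace ℝ (Fin d) => f (a, a + y)) := by
    exact hf.comp (by fun_prop)
  rw [Measure.lintegral_conv h4]
  rw [lintegral_lintegral_swap]
  · refine lintegral_congr fun b => lintegral_congr fun c => ?_
    show f (a, a + c + b) = f (a, a + (b + c))
    rw [add_assoc, add_comm c b]
  · have h5 : Measurable (fun p : EuclideanSpace ℝ (Fin d) × EuclideanSpace ℝ (Fin d) =>
      f (f4_g ((a, a + p.1), p.2))) := by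
      unfold f4_g
      exact hf.comp (by fun_prop)
    exact h5.aemeasurable

theorem f4_two (α β γ : Measure (EuclideanSpace ℝ (Fin d))) [IsProbabilityMeasure α]
    [IsProbabilityMeasure β] [IsProbabilityMeasure γ] :
    ((α.prod (α.conv γ)).prod β).map f4_g = α.prod (α.conv (β.conv γ)) := by
  refine Measure.ext_of_lintegral _ fun f hf => ?_
  rw [lintegral_map hf f4_meas]
  have hfg : Measurable (fun q => f (f4_g q)) := hf.comp (f4_meas (d := d))
  rw [lintegral_prod _ hfg.aemeasurable]
  have h1 : Measurable (fun x : EuclideanSpace ℝ (Fin d) × EuclideanSpace ℝ (Fin d) =>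
      ∫⁻ y, f (f4_g (x, y)) ∂β) := hfg.lintegral_prod_right'
  rw [lintegral_prod _ h1.aemeasurable, lintegral_prod _ hf.aemeasurable]
  refine lintegral_congr fun a => ?_
  have h2 : Measurable (fun y : EuclideanSpace ℝ (Fin d) => ∫⁻ b, f (f4_g ((a, y), b)) ∂β) :=
    h1.comp (by fun_prop)
  have h3 : Measurable (fun y : EuclideanSpace ℝ (Fin d) => f (a, y)) := hf.comp (by fun_prop)
  rw [Measure.lintegral_conv h2, Measure.lintegral_conv h3]
  refine lintegral_congr fun a' => ?_
  have h4 : Measurable (fun y : EuclideanSpace ℝ (Fin d) => f (a, a' + y)) := hf.comp (by fun_prop)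
  rw [Measure.lintegral_conv h4]
  rw [lintegral_lintegral_swap]
  · refine lintegral_congr fun b => lintegral_congr fun c => ?_
    show f (a, a' + c + b) = f (a, a' + (b + c))
    rw [add_assoc, add_comm c b]
  · have h5 : Measurable (fun p : EuclideanSpace ℝ (Fin d) × EuclideanSpace ℝ (Fin d) =>
      f (f4_g ((a, a' + p.1), p.2))) := by
      unfold f4_g
      exact hf.comp (by fun_prop)
    exact h5.aemeasurable

/-- data processing -/
theorem MI_mono (α β γ : Measure (EuclideanSpace ℝ (Fin d))) [IsProbabilityMeasure α]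
    [IsProbabilityMeasure β] [IsProbabilityMeasure γ] : MI α (β.conv γ) ≤ MI α γ := by
  have hm1 : Measurable (fun p : EuclideanSpace ℝ (Fin d) × EuclideanSpace ℝ (Fin d) =>
    (p.1, p.1 + p.2)) := by fun_prop
  have : IsProbabilityMeasure (Jn α γ) := Measure.isProbabilityMeasure_map hm1.aemeasurable
  unfold MI
  rw [← f4_one α β γ, ← f4_two α β γ]
  refine le_trans (InformationTheory.klDiv_map_le _ _ f4_meas) ?_
  rw [← Measure.compProd_const, ← Measure.compProd_const,
    InformationTheory.klDiv_compProd_left]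

end Pool.Agent.EPS
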